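import Pool.Agent.Helper61.LF.GoalsN

/-! # PROJECT LF, part 2 : packet LF-PRM -/

set_option autoImplicit false

namespace Pool.Agent.Helper95.LF.PRM

open Pool.Agent.Helper61.LF

universe u

theorem fin_of {A : Type u} [CommRing A] {P : Type u} [AddCommGroup P] [Module A P]
    (R R' R'' : Submodule A P) (φ : P →ₗ[A] P) (hφ : ∀ x ∈ R'', φ x ∈ R)
    (hR' : ∀ x ∈ R', ∃ y, x - φ y ∈ R) [Finite (P ⧸ R')] [Finite (P ⧸ R'')] : Finite (P ⧸ R) := by
  choose s hs using R'.mkQ_surjective
  choose t ht using R''.mkQ_surjective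
  refine Finite.of_surjective
    (fun q : (P ⧸ R'') × (P ⧸ R') => R.mkQ (φ (t q.1) + s q.2)) ?_
  intro x
  obtain ⟨x0, rfl⟩ := R.mkQ_surjective x
  have h1 : x0 - s (R'.mkQ x0) ∈ R' := by
    rw [← Submodule.Quotient.eq R']
    exact (hs (R'.mkQ x0)).symm
  obtain ⟨y, hy⟩ := hR' _ h1
  have h2 : y - t (R''.mkQ y) ∈ R'' := by
    rw [← Submodule.Quotient.eq R'']
    exact (ht (R''.mkQ y)).symm
  have h3 := hφ _ h2
  rw [map_sub] at h3
  refine ⟨(R''.mkQ y, R'.mkQ x0), ?_⟩
  refine ((Submodule.Quotient.eq R).2 ?_).symm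
  have e : x0 - (φ (t (R''.mkQ y)) + s (R'.mkQ x0)) =
      (x0 - s (R'.mkQ x0) - φ y) + (φ y - φ (t (R''.mkQ y))) := by abel
  rw [e]
  exact R.add_mem hy h3

theorem t : S_PRM.{u} := by
  intro A _ P _ _ N
  induction N using Nat.strong_induction_on with
  | _ N ih =>
    intro R hN hx hinf
    by_cases h1 : N = 1
    · exfalso
      subst h1
      have hR : R = ⊤ := by
        rw [Submodule.eq_top_iff']
        intro x
        have h2 := hx x
        rw [one_smul] at h2
        exact h2
      subst hR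
      exact (not_finite (P ⧸ (⊤ : Submodule A P)))
    · have hp : N.minFac.Prime := Nat.minFac_prime h1
      obtain ⟨N', hN'⟩ := Nat.minFac_dvd N
      obtain ⟨p, hpp⟩ : ∃ p, p = N.minFac := ⟨_, rfl⟩
      rw [← hpp] at hp hN'
      have hN'0 : 0 < N' := by
        rcases Nat.eq_zero_or_pos N' with h0 | h0
        · rw [h0, mul_zero] at hN'
          omega
        · exact h0
      have hlt : N' < N := by
        rw [hN']
        exact lt_mul_of_one_lt_left hN'0 hp.one_lt
      let φ : P →ₗ[A] P := LinearMap.lsmul A P (p : A)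
      have hφ : ∀ x, φ x = p • x := by
        intro x
        change (p : A) • x = p • x
        exact Nat.cast_smul_eq_nsmul A p x
      by_cases h2 : Infinite (P ⧸ (R ⊔ LinearMap.range φ))
      · refine ⟨p, hp, R ⊔ LinearMap.range φ, le_sup_left, ?_, h2⟩
        intro x
        rw [← hφ x]
        exact Submodule.mem_sup_right ⟨x, rfl⟩
      · have h3 : Finite (P ⧸ (R ⊔ LinearMap.range φ)) := not_infinite_iff_finite.1 h2
        have h4 : Infinite (P ⧸ R.comap φ) := by
          by_contra h5
          have h6 : Finite (P ⧸ R.comap φ) := not_infinite_iff_finite.1 h5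
          have h7 : Finite (P ⧸ R) := by
            refine fin_of R (R ⊔ LinearMap.range φ) (R.comap φ) φ (fun x hx => hx) ?_
            intro x hx
            obtain ⟨a, ha, b, ⟨y, rfl⟩, rfl⟩ := Submodule.mem_sup.1 hx
            exact ⟨y, by simpa using ha⟩
          exact not_finite (P ⧸ R)
        obtain ⟨q, hq, R', hle, hR', hinf'⟩ := ih N' hlt (R.comap φ) hN'0 (by
          intro x
          change φ (N' • x) ∈ R
          rw [hφ, smul_smul, ← hN']
          exact hx x) h4
        refine ⟨q, hq, R', le_trans ?_ hle, hR', hinf'⟩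
        intro x hxR
        change φ x ∈ R
        rw [hφ]
        exact R.nsmul_mem hxR p

end Pool.Agent.Helper95.LF.PRM
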